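import Pool.Agent.H.MP_214325_an.B

namespace Pool.Agent.Results.MP_214325_an.No

open Polynomial
open scoped ContDiff

noncomputable def L (p0 p1 p2 f : ℝ → ℂ) (x : ℝ) : ℂ :=
  iteratedDeriv 4 f x + p2 x * iteratedDeriv 2 f x + p1 x * iteratedDeriv 1 f x + p0 x * f x

noncomputable def Hill (q f : ℝ → ℂ) (x : ℝ) : ℂ := deriv (deriv f) x + q x * f x

theorem result : ∃ (b : ℝ) (p0 p1 p2 : ℝ → ℂ) (R : ℂ[X]) (Δ : ℂ → ℂ), 0 < b ∧
    (∀ p ∈ [p0, p1, p2], ContDiff ℝ ∞ p ∧ Function.Periodic p b) ∧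
    R.Monic ∧ R.natDegree = 2 ∧ Differentiable ℂ Δ ∧
    (∀ (l : ℂ) (u : Fin 4 → ℝ → ℂ), (∀ j, ContDiff ℝ 4 (u j)) →
      (∀ j k : Fin 4, iteratedDeriv k (u j) 0 = if j = k then 1 else 0) →
      (∀ j x, L p0 p1 p2 (u j) x = l * u j x) → ∀ r : ℂ, r ≠ 0 →
      ((r • (1 : Matrix (Fin 4) (Fin 4) ℂ)
          - Matrix.of fun k j : Fin 4 => iteratedDeriv k (u j) b).det = 0 ↔
        ((R - C l).roots.map fun w => r + r⁻¹ - Δ w).prod = 0)) ∧
    ¬ ∃ q : ℝ → ℂ, ContDiff ℝ 2 q ∧ ∀ f : ℝ → ℂ, ContDiff ℝ ∞ f → ∀ x,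
      L p0 p1 p2 f x = ∑ k ∈ Finset.range 3, R.coeff k * (Hill q)^[k] f x := by
  open H.MP_214325_an in
  have t : ContDiff ℝ ∞ th := th_smooth.of_le le_top
  open H.MP_214325_an in
  have F : ContDiff ℝ ∞ FF := by unfold FF; fun_prop
  open H.MP_214325_an in
  refine ⟨Real.pi, p0, p1, p2, X ^ 2, De, Real.pi_pos, ?_, monic_X_pow 2, natDegree_X_pow 2,
    De_diff, fun l u hu hi h r hr => (det_iff hu hi h r).trans (De_iff l r hr).symm, ?_⟩
  · open H.MP_214325_an in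
    simp only [List.mem_cons, List.not_mem_nil, or_false, forall_eq_or_imp, forall_eq]
    open H.MP_214325_an in
    exact ⟨⟨by unfold p0; fun_prop, fun x => by simp only [p0, FF, th_per]⟩,
      ⟨by unfold p1; fun_prop, fun x => by simp only [p1, FF, th_per]⟩,
      ⟨by unfold p2; fun_prop, fun x => by simp only [p2, FF, th_per]⟩⟩
  · rintro ⟨q, hq, h⟩
    refine H.MP_214325_an.not_sq q hq (Hill q) (fun f => rfl) fun f hf x => ?_
    have := h f hf x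
    simpa [Finset.sum_range_succ, coeff_X_pow, L] using this

end Pool.Agent.Results.MP_214325_an.No
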